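import Mathlib

/-!
# Every countable multigraph is majority 3-choosable

A multigraph is a simple graph `G` on a countable vertex set `V` with a weight function
`w : Sym2 V → ℕ`, of which only the values on the edges of `G` matter.  We show that a majority
colouring can be chosen from arbitrary lists with at least three colours each.  With all lists equal
to `{0, 1, 2}` this says that every countable multigraph is majority 3-colourable
(`three_colourable` at the end of this file).

Outline of the proof.  Call a vertex infinite if it has infinitely many neighbours along edges of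
positive weight, and finite otherwise.
1. Every finite vertex `u` gets a sublist with two colours.
2. Let `I₀` be the set of infinite vertices with only finitely many infinite neighbours.  By the
   pigeonhole principle, `v ∈ I₀` has a colour in its list which is missing from the two-element
   sublists of infinitely many of its finite neighbours.  Give this colour to `v`.
3. Let `I₁` be the set of the other infinite vertices.  Every `v ∈ I₁` gets a sublist with two
   colours, such that, if `v` has only finitely many neighbours in `I₁`, then each of the two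
   colours is avoided by infinitely many neighbours of `v` in `I₀`.
4. By Baire category, `I₁` can be coloured from these sublists such that each `v ∈ I₁` with
   infinitely many neighbours in `I₁` has infinitely many bichromatic edges.
5. By compactness, the finite vertices can be coloured from their sublists such that all of them
   are satisfied (for finitely many of them one minimises the monochromatic weight).
-/

open scoped ENNReal

namespace Pool.Agent.Results.MP_e8eed4_co.MajorityThreeChoosable

/-- `monoWeight G w φ v` is the total weight of the monochromatic edges at `v`. -/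
noncomputable def monoWeight {V C : Type*} (G : SimpleGraph V) (w : Sym2 V → ℕ) (φ : V → C)
    (v : V) : ℝ≥0∞ :=
  ∑' u : {u : V // G.Adj v u ∧ φ u = φ v}, (w s(v, u.1) : ℝ≥0∞)

/-- `biWeight G w φ v` is the total weight of the bichromatic edges at `v`. -/
noncomputable def biWeight {V C : Type*} (G : SimpleGraph V) (w : Sym2 V → ℕ) (φ : V → C)
    (v : V) : ℝ≥0∞ :=
  ∑' u : {u : V // G.Adj v u ∧ φ u ≠ φ v}, (w s(v, u.1) : ℝ≥0∞)

/-- `φ` is a majority colouring: at every vertex the total weight of bichromatic edges is at least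
the total weight of monochromatic edges (both sums are taken in `[0, ∞]`). -/
def IsMajorityColouring {V C : Type*} (G : SimpleGraph V) (w : Sym2 V → ℕ) (φ : V → C) : Prop :=
  ∀ v, monoWeight G w φ v ≤ biWeight G w φ v

/-- In a finite system of two-state spins with symmetric pair interaction `M` and an external field
`h` there is a state in which no single flip decreases the energy. -/
theorem ground {ι : Type*} [Fintype ι] [DecidableEq ι] (M : ι → ι → Bool → Bool → ℤ)
    (hs : ∀ i j a b, M i j a b = M j i b a) (hd : ∀ i a b, M i i a b = 0) (h : ι → Bool → ℤ) :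
    ∃ c : ι → Bool, ∀ x, ∑ j, M x j (c x) (c j) + h x (c x) ≤
      ∑ j, M x j (!c x) (c j) + h x (!c x) := by
  let E : (ι → Bool) → ℤ := fun c => ∑ i, ∑ j, M i j (c i) (c j) + 2 * ∑ i, h i (c i)
  obtain ⟨c, hc⟩ := Finite.exists_min E
  refine ⟨c, fun x => ?_⟩
  have key := hc (Function.update c x (!c x))
  -- the energy seen from `x`
  have dec : ∀ c : ι → Bool, E c =
      (∑ i ∈ Finset.univ.erase x, ∑ j ∈ Finset.univ.erase x, M i j (c i) (c j) +
        2 * ∑ i ∈ Finset.univ.erase x, h i (c i)) +
      2 * (∑ j ∈ Finset.univ.erase x, M x j (c x) (c j) + h x (c x)) := by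
    intro c
    have e1 : ∑ i, ∑ j, M i j (c i) (c j) =
        ∑ j ∈ Finset.univ.erase x, M x j (c x) (c j) +
        ∑ i ∈ Finset.univ.erase x, (∑ j ∈ Finset.univ.erase x, M i j (c i) (c j) +
          M x i (c x) (c i)) := by
      rw [← Finset.add_sum_erase _ _ (Finset.mem_univ x)]
      congr 1
      · rw [← Finset.add_sum_erase _ _ (Finset.mem_univ x), hd, zero_add]
      · refine Finset.sum_congr rfl fun i _ => ?_
        rw [← Finset.add_sum_erase _ _ (Finset.mem_univ x), hs i x, add_comm]
    have e2 : ∑ i, h i (c i) = h x (c x) + ∑ i ∈ Finset.univ.erase x, h i (c i) :=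
      (Finset.add_sum_erase _ _ (Finset.mem_univ x)).symm
    simp only [E]
    rw [e1, e2, Finset.sum_add_distrib]
    ring
  have loc : ∀ b, ∑ j, M x j b (c j) = ∑ j ∈ Finset.univ.erase x, M x j b (c j) := by
    intro b
    rw [← Finset.add_sum_erase _ _ (Finset.mem_univ x), hd, zero_add]
  have up : ∀ j ∈ Finset.univ.erase x, Function.update c x (!c x) j = c j := by
    intro j hj
    exact Function.update_of_ne (Finset.ne_of_mem_erase hj) _ _
  rw [dec c, dec (Function.update c x (!c x))] at key
  have r1 : ∑ i ∈ Finset.univ.erase x, ∑ j ∈ Finset.univ.erase x,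
      M i j (Function.update c x (!c x) i) (Function.update c x (!c x) j) =
      ∑ i ∈ Finset.univ.erase x, ∑ j ∈ Finset.univ.erase x, M i j (c i) (c j) := by
    refine Finset.sum_congr rfl fun i hi => Finset.sum_congr rfl fun j hj => ?_
    rw [up i hi, up j hj]
  have r2 : ∑ i ∈ Finset.univ.erase x, h i (Function.update c x (!c x) i) =
      ∑ i ∈ Finset.univ.erase x, h i (c i) :=
    Finset.sum_congr rfl fun i hi => by rw [up i hi]
  have r3 : ∑ j ∈ Finset.univ.erase x, M x j (Function.update c x (!c x) x)
      (Function.update c x (!c x) j) = ∑ j ∈ Finset.univ.erase x, M x j (!c x) (c j) :=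
    Finset.sum_congr rfl fun j hj => by rw [up j hj, Function.update_self]
  rw [r1, r2, r3, Function.update_self] at key
  rw [loc, loc]
  linarith

/-- Given countably many infinite sets `A i` and functions `g i : V → Bool`, there is
`ψ : V → Bool` which agrees with each `g i` infinitely often on `A i`. -/
theorem generic {V ι : Type*} [Countable V] [Countable ι] (A : ι → Set V)
    (hA : ∀ i, (A i).Infinite) (g : ι → V → Bool) :
    ∃ ψ : V → Bool, ∀ i, {u | u ∈ A i ∧ ψ u = g i u}.Infinite := by
  classical
  let O : ι × Finset V → Set (V → Bool) := fun p => {ψ | ∃ u ∈ A p.1, u ∉ p.2 ∧ ψ u = g p.1 u}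
  have hO : ∀ p, IsOpen (O p) := by
    intro p
    have : O p = ⋃ u ∈ {u | u ∈ A p.1 ∧ u ∉ p.2}, {ψ : V → Bool | ψ u = g p.1 u} := by
      ext ψ; simp [O, and_assoc]
    rw [this]
    refine isOpen_biUnion fun u _ => ?_
    have hc : Continuous (fun ψ : V → Bool => ψ u) := continuous_apply u
    exact (isOpen_discrete ({g p.1 u} : Set Bool)).preimage hc
  have hD : ∀ p, Dense (O p) := by
    intro p
    rw [dense_iff_inter_open]
    rintro U hU ⟨ψ₀, hψ₀⟩
    obtain ⟨J, t, ht, hJ⟩ := isOpen_pi_iff.1 hU ψ₀ hψ₀
    obtain ⟨u, huA, hu⟩ := (hA p.1).exists_notMem_finset (p.2 ∪ J)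
    rw [Finset.mem_union, not_or] at hu
    refine ⟨Function.update ψ₀ u (g p.1 u), hJ ?_, u, huA, hu.1, by simp⟩
    intro j hj
    have : j ≠ u := fun h => hu.2 (h ▸ hj)
    simp only [Function.update_of_ne this]
    exact (ht j hj).2
  obtain ⟨ψ, hψ⟩ := (dense_iInter_of_isOpen hO hD).nonempty
  refine ⟨ψ, fun i hfin => ?_⟩
  have := Set.mem_iInter.1 hψ (i, hfin.toFinset)
  obtain ⟨u, hu, hn, hb⟩ := this
  exact hn (by simpa using ⟨hu, hb⟩)

/-- The neighbours of `v` along edges of positive weight. -/
def nbs {V : Type*} (G : SimpleGraph V) (w : Sym2 V → ℕ) (v : V) : Set V :=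
  {u | G.Adj v u ∧ w s(v, u) ≠ 0}

/-- Infinitely many bichromatic edges of positive weight have infinite total weight. -/
theorem bi_top {V C : Type*} (G : SimpleGraph V) (w : Sym2 V → ℕ) (φ : V → C) (v : V)
    (h : {u | u ∈ nbs G w v ∧ φ u ≠ φ v}.Infinite) : biWeight G w φ v = ⊤ := by
  have : Infinite {u | u ∈ nbs G w v ∧ φ u ≠ φ v} := h.to_subtype
  rw [eq_top_iff]
  calc (⊤ : ℝ≥0∞) = ∑' _ : {u | u ∈ nbs G w v ∧ φ u ≠ φ v}, (1 : ℝ≥0∞) :=
        (ENNReal.tsum_const_eq_top_of_ne_zero one_ne_zero).symm
    _ ≤ ∑' u : {u | u ∈ nbs G w v ∧ φ u ≠ φ v}, (w s(v, u.1) : ℝ≥0∞) := by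
        refine ENNReal.tsum_le_tsum fun u => ?_
        have := u.2.1.2
        exact_mod_cast Nat.one_le_iff_ne_zero.2 this
    _ ≤ biWeight G w φ v := by
        unfold biWeight
        exact ENNReal.tsum_mono_subtype (fun u => (w s(v, u) : ℝ≥0∞))
          (s := {u | u ∈ nbs G w v ∧ φ u ≠ φ v}) (t := {u | G.Adj v u ∧ φ u ≠ φ v})
          (fun u hu => ⟨hu.1.1, hu.2⟩)

/-- At a vertex with finitely many neighbours of positive weight, the sums are finite sums. -/
theorem tsum_fin {V : Type*} (G : SimpleGraph V) (w : Sym2 V → ℕ) (v : V)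
    (hf : (nbs G w v).Finite) (P : V → Prop) [DecidablePred P] :
    ∑' u : {u : V // G.Adj v u ∧ P u}, (w s(v, u.1) : ℝ≥0∞) =
      ((∑ u ∈ hf.toFinset, if P u then w s(v, u) else 0 : ℕ) : ℝ≥0∞) := by
  classical
  have h1 := tsum_subtype {u : V | G.Adj v u ∧ P u} (fun u => (w s(v, u) : ℝ≥0∞))
  have h2 : ∑' u : {u : V // G.Adj v u ∧ P u}, (w s(v, u.1) : ℝ≥0∞) =
      ∑' u, ({u : V | G.Adj v u ∧ P u}.indicator (fun u => (w s(v, u) : ℝ≥0∞))) u := h1
  rw [h2, tsum_eq_sum (s := hf.toFinset)]
  · push_cast
    refine Finset.sum_congr rfl fun u hu => ?_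
    have hu' : u ∈ nbs G w v := by simpa using hu
    by_cases hP : P u
    · simp [Set.indicator, hP, hu'.1]
    · simp [Set.indicator, hP]
  · intro u hu
    have hu' : ¬ (G.Adj v u ∧ w s(v, u) ≠ 0) := by simpa [nbs] using hu
    by_cases hA : G.Adj v u ∧ P u
    · have : w s(v, u) = 0 := by
        by_contra h
        exact hu' ⟨hA.1, h⟩
      simp [Set.indicator, hA, this]
    · simp [Set.indicator, hA]

open Classical in
/-- The finite set of neighbours of positive weight (empty if there are infinitely many). -/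
noncomputable def nb {V : Type*} (G : SimpleGraph V) (w : Sym2 V → ℕ) (v : V) : Finset V :=
  if h : (nbs G w v).Finite then h.toFinset else ∅

theorem mem_nb {V : Type*} {G : SimpleGraph V} {w : Sym2 V → ℕ} {v : V}
    (h : (nbs G w v).Finite) (u : V) : u ∈ nb G w v ↔ (G.Adj v u ∧ w s(v, u) ≠ 0) := by
  rw [nb, dif_pos h, Set.Finite.mem_toFinset]
  rfl

open Classical in
/-- Weight at `v` towards the neighbours of colour `x` (for `v` of finite degree). -/
noncomputable def toCol {V C : Type*} (G : SimpleGraph V) (w : Sym2 V → ℕ) (p : V → Bool → C)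
    (c : V → Bool) (v : V) (x : C) : ℕ :=
  ∑ u ∈ nb G w v, if p u (c u) = x then w s(v, u) else 0

/-- Extension of a choice on the vertices of infinite degree to a choice on all vertices for which
switching a vertex of finite degree to its other colour does not decrease its monochromatic
weight. -/
theorem exists_code {V C : Type*} (G : SimpleGraph V) (w : Sym2 V → ℕ) (p : V → Bool → C)
    (ψ : V → Bool) :
    ∃ c : V → Bool, (∀ v, (nbs G w v).Infinite → c v = ψ v) ∧
      ∀ v, (nbs G w v).Finite → toCol G w p c v (p v (c v)) ≤ toCol G w p c v (p v (!c v)) := by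
  classical
  let K : Set (V → Bool) := {φ | ∀ v, (nbs G w v).Infinite → φ v = ψ v}
  have hKc : IsClosed K := by
    have : K = ⋂ v ∈ {v | (nbs G w v).Infinite}, {φ : V → Bool | φ v = ψ v} := by
      ext φ; simp [K]
    rw [this]
    refine isClosed_biInter fun v _ => ?_
    exact isClosed_eq (continuous_apply v) continuous_const
  let t : {v : V // (nbs G w v).Finite} → Set (V → Bool) := fun v =>
    {c | toCol G w p c v.1 (p v.1 (c v.1)) ≤ toCol G w p c v.1 (p v.1 (!c v.1))}
  have htc : ∀ v, IsClosed (t v) := by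
    intro v
    have hpair : ∀ u, Continuous (fun φ : V → Bool => (φ u, φ v.1)) := fun u =>
      (continuous_apply u).prodMk (continuous_apply v.1)
    refine isClosed_le ?_ ?_
    · refine continuous_finsetSum _ fun u _ => ?_
      exact (continuous_of_discreteTopology
        (f := fun q : Bool × Bool => if p u q.1 = p v.1 q.2 then w s(v.1, u) else 0)).comp
          (hpair u)
    · refine continuous_finsetSum _ fun u _ => ?_
      exact (continuous_of_discreteTopology
        (f := fun q : Bool × Bool => if p u q.1 = p v.1 (!q.2) then w s(v.1, u) else 0)).comp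
          (hpair u)
  have hfin : ∀ T : Finset {v : V // (nbs G w v).Finite}, (K ∩ ⋂ v ∈ T, t v).Nonempty := by
    intro T
    let T' : Finset V := T.map (Function.Embedding.subtype _)
    let M : {v // v ∈ T'} → {v // v ∈ T'} → Bool → Bool → ℤ := fun i j a b =>
      if G.Adj i.1 j.1 ∧ p i.1 a = p j.1 b then (w s(i.1, j.1) : ℤ) else 0
    let h : {v // v ∈ T'} → Bool → ℤ := fun i a =>
      ∑ u ∈ nb G w i.1 \ T', if p u (ψ u) = p i.1 a then (w s(i.1, u) : ℤ) else 0
    obtain ⟨σ, hσ⟩ := ground M
      (fun i j a b => by simp only [M, G.adj_comm, Sym2.eq_swap, eq_comm])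
      (fun i a b => by simp [M]) h
    let c : V → Bool := fun v => if hv : v ∈ T' then σ ⟨v, hv⟩ else ψ v
    have hcσ : ∀ i : {v // v ∈ T'}, σ i = c i.1 := by
      intro i
      simp [c, i.2]
    have hcψ : ∀ v, v ∉ T' → c v = ψ v := by
      intro v hv
      simp [c, hv]
    refine ⟨c, ?_, ?_⟩
    · intro v hv
      refine hcψ v fun hvT => hv ?_
      simp only [T', Finset.mem_map, Function.Embedding.coe_subtype] at hvT
      obtain ⟨x, _, rfl⟩ := hvT
      exact x.2
    · refine Set.mem_iInter₂.2 fun v hv => ?_
      have hvT : v.1 ∈ T' := by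
        simp only [T', Finset.mem_map, Function.Embedding.coe_subtype]
        exact ⟨v, hv, rfl⟩
      have key := hσ ⟨v.1, hvT⟩
      have e0 : ∀ b, ∑ j : {v // v ∈ T'}, M ⟨v.1, hvT⟩ j b (σ j) + h ⟨v.1, hvT⟩ b =
          (toCol G w p c v.1 (p v.1 b) : ℤ) := by
        intro b
        have e1 : ∑ j : {v // v ∈ T'}, M ⟨v.1, hvT⟩ j b (σ j) =
            ∑ u ∈ nb G w v.1 ∩ T', if p u (c u) = p v.1 b then (w s(v.1, u) : ℤ) else 0 := by
          have e2 : ∑ j : {v // v ∈ T'}, M ⟨v.1, hvT⟩ j b (σ j) =
              ∑ j : {v // v ∈ T'}, (fun u => if G.Adj v.1 u ∧ p v.1 b = p u (c u) then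
                (w s(v.1, u) : ℤ) else 0) j.1 := by
            refine Finset.sum_congr rfl fun j _ => ?_
            simp only [M, hcσ]
          rw [e2, Finset.sum_coe_sort T' (fun u => if G.Adj v.1 u ∧ p v.1 b = p u (c u) then
                (w s(v.1, u) : ℤ) else 0)]
          rw [Finset.inter_comm,
            ← Finset.sum_filter_add_sum_filter_not T' (fun u => u ∈ nb G w v.1)]
          have e3 : ∑ x ∈ T' with ¬ x ∈ nb G w v.1,
              (if G.Adj v.1 x ∧ p v.1 b = p x (c x) then (w s(v.1, x) : ℤ) else 0) = 0 := by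
            refine Finset.sum_eq_zero fun x hx => ?_
            have hx' : ¬ (G.Adj v.1 x ∧ w s(v.1, x) ≠ 0) := by
              have := (Finset.mem_filter.1 hx).2
              rwa [mem_nb v.2] at this
            by_cases hA : G.Adj v.1 x
            · have : w s(v.1, x) = 0 := by
                by_contra h
                exact hx' ⟨hA, h⟩
              simp [this]
            · simp [hA]
          rw [e3, add_zero, Finset.filter_mem_eq_inter]
          refine Finset.sum_congr rfl fun x hx => ?_
          have hx' : (G.Adj v.1 x ∧ w s(v.1, x) ≠ 0) := by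
            have := (Finset.mem_inter.1 hx).2
            rwa [mem_nb v.2] at this
          simp [hx'.1, eq_comm]
        have e4 : h ⟨v.1, hvT⟩ b = ∑ u ∈ nb G w v.1 \ T',
            if p u (c u) = p v.1 b then (w s(v.1, u) : ℤ) else 0 := by
          refine Finset.sum_congr rfl fun u hu => ?_
          rw [hcψ u (Finset.mem_sdiff.1 hu).2]
        rw [e1, e4, Finset.sum_inter_add_sum_sdiff]
        simp [toCol]
      rw [e0, e0, hcσ] at key
      show toCol G w p c v.1 (p v.1 (c v.1)) ≤ toCol G w p c v.1 (p v.1 (!c v.1))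
      exact_mod_cast key
  obtain ⟨φ, hφK, hφ⟩ := hKc.isCompact.inter_iInter_nonempty t htc hfin
  refine ⟨φ, hφK, fun v hv => ?_⟩
  exact Set.mem_iInter.1 hφ ⟨v, hv⟩

/-- A finset with at least two elements contains two distinct elements, indexed by `Bool`. -/
theorem exists_pair {C : Type*} (L : Finset C) (h : 2 ≤ L.card) :
    ∃ q : Bool → C, q true ≠ q false ∧ ∀ b, q b ∈ L := by
  obtain ⟨x, hx, y, hy, hxy⟩ := Finset.one_lt_card.1 (show 1 < L.card by omega)
  refine ⟨fun b => if b then x else y, by simpa using hxy, fun b => ?_⟩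
  cases b <;> simp [hx, hy]

/-- **Every countable multigraph is majority 3-choosable.**  The multigraph is the simple graph `G`
on the countable vertex set `V`, where the edge `vu` has weight `w s(v, u)`; the list of colours
available at `v` is `L v`. -/
theorem result (V C : Type*) [Countable V] (G : SimpleGraph V) (w : Sym2 V → ℕ)
    (L : V → Finset C) (hL : ∀ v, 3 ≤ (L v).card) :
    ∃ φ : V → C, (∀ v, φ v ∈ L v) ∧ IsMajorityColouring G w φ := by
  classical
  let I : Set V := {v | (nbs G w v).Infinite}
  let I₀ : Set V := {v | v ∈ I ∧ (nbs G w v ∩ I).Finite}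
  let I₁ : Set V := {v | v ∈ I ∧ (nbs G w v ∩ I).Infinite}
  -- Step 1: two-element sublists
  choose q hq1 hq2 using fun v => exists_pair (L v) (by have := hL v; omega)
  -- Step 2: colours for `I₀`
  have step2 : ∀ v, ∃ x ∈ L v, v ∈ I₀ →
      {u | u ∈ nbs G w v ∧ u ∉ I ∧ ∀ b, q u b ≠ x}.Infinite := by
    intro v
    by_cases hv : v ∈ I₀
    · by_contra hcon
      push Not at hcon
      have hfin : ∀ x ∈ L v, {u | u ∈ nbs G w v ∧ u ∉ I ∧ ∀ b, q u b ≠ x}.Finite :=
        fun x hx => (hcon x hx).2
      have hF : (nbs G w v \ I).Finite := by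
        refine ((L v).finite_toSet.biUnion (fun x hx => hfin x hx)).subset ?_
        rintro u ⟨hu1, hu2⟩
        -- some colour of `L v` is not in the sublist of `u`
        have : ∃ x ∈ L v, x ∉ ({q u true, q u false} : Finset C) := by
          by_contra hno
          push Not at hno
          have := Finset.card_le_card (show L v ⊆ ({q u true, q u false} : Finset C) from hno)
          have h2 : ({q u true, q u false} : Finset C).card ≤ 2 := Finset.card_le_two
          have := hL v
          omega
        obtain ⟨x, hx, hxu⟩ := this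
        refine Set.mem_biUnion hx ⟨hu1, hu2, fun b hb => hxu ?_⟩
        rw [← hb]
        cases b <;> simp
      apply hv.1
      rw [← Set.inter_union_sdiff (nbs G w v) I]
      exact hv.2.union hF
    · exact ⟨q v true, hq2 v true, fun h => absurd h hv⟩
  choose x hx1 hx2 using step2
  -- Step 3: sublists for `I₁`
  have step3 : ∀ v, ∃ r : Bool → C, r true ≠ r false ∧ (∀ b, r b ∈ L v) ∧
      (v ∈ I₁ → (nbs G w v ∩ I₁).Finite → ∀ b,
        {u | u ∈ nbs G w v ∧ u ∈ I₀ ∧ x u ≠ r b}.Infinite) := by
    intro v
    by_cases hv : v ∈ I₁ ∧ (nbs G w v ∩ I₁).Finite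
    · -- infinitely many neighbours in `I₀`
      have hinf : {u | u ∈ nbs G w v ∧ u ∈ I₀}.Infinite := by
        intro hfin
        refine hv.1.2 ((hfin.union hv.2).subset ?_)
        rintro u ⟨hu1, hu2⟩
        by_cases hu : (nbs G w u ∩ I).Finite
        · exact Or.inl ⟨hu1, hu2, hu⟩
        · exact Or.inr ⟨hu1, hu2, hu⟩
      -- at most one colour is bad
      by_cases hbad : ∃ z, {u | u ∈ nbs G w v ∧ u ∈ I₀ ∧ x u ≠ z}.Finite
      · obtain ⟨z, hz⟩ := hbad
        obtain ⟨r, hr1, hr2⟩ := exists_pair ((L v).erase z) (by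
          have := Finset.pred_card_le_card_erase (s := L v) (a := z)
          have := hL v
          omega)
        refine ⟨r, hr1, fun b => Finset.mem_of_mem_erase (hr2 b), fun _ _ b hfin => hinf ?_⟩
        refine (hz.union hfin).subset ?_
        rintro u ⟨hu1, hu2⟩
        by_cases hu : x u = z
        · refine Or.inr ⟨hu1, hu2, ?_⟩
          rw [hu]
          exact (Finset.ne_of_mem_erase (hr2 b)).symm
        · exact Or.inl ⟨hu1, hu2, hu⟩
      · push Not at hbad
        exact ⟨q v, hq1 v, hq2 v, fun _ _ b => hbad (q v b)⟩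
    · exact ⟨q v, hq1 v, hq2 v, fun h1 h2 => absurd ⟨h1, h2⟩ hv⟩
  choose r hr1 hr2 hr3 using step3
  -- the two colours available at each vertex (equal on `I₀`)
  let p : V → Bool → C := fun v b => if v ∈ I₀ then x v else if v ∈ I₁ then r v b else q v b
  have hpL : ∀ v b, p v b ∈ L v := by
    intro v b
    simp only [p]
    split_ifs
    · exact hx1 v
    · exact hr2 v b
    · exact hq2 v b
  have hp0 : ∀ v ∈ I₀, ∀ b, p v b = x v := fun v hv b => by simp [p, hv]
  have hI01 : ∀ v ∈ I₁, v ∉ I₀ := fun v hv h => hv.2 h.2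
  have hp1 : ∀ v ∈ I₁, ∀ b, p v b = r v b := fun v hv b => by simp [p, hv, hI01 v hv]
  have hpF : ∀ v, v ∉ I → ∀ b, p v b = q v b := fun v hv b => by
    have h1 : v ∉ I₀ := fun h => hv h.1
    have h2 : v ∉ I₁ := fun h => hv h.1
    simp [p, h1, h2]
  -- Step 4: generic choice on `I₁`
  obtain ⟨ψ, hψ⟩ := generic (V := V) (ι := {v : V // (nbs G w v ∩ I₁).Infinite} × Bool)
    (fun i => nbs G w i.1.1 ∩ I₁) (fun i => i.1.2)
    (fun i u => if p u true = p i.1.1 i.2 then false else true)
  -- Step 5: the vertices of finite degree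
  obtain ⟨c, hc1, hc2⟩ := exists_code G w p ψ
  let φ : V → C := fun v => p v (c v)
  refine ⟨φ, fun v => hpL v (c v), fun v => ?_⟩
  by_cases hI : v ∈ I
  · rw [bi_top]
    · exact le_top
    by_cases h0 : v ∈ I₀
    · refine (hx2 v h0).mono ?_
      rintro u ⟨hu1, hu2, hu3⟩
      refine ⟨hu1, ?_⟩
      simp only [φ]
      rw [hp0 v h0, hpF u hu2]
      exact hu3 _
    · have h1 : v ∈ I₁ := ⟨hI, fun h => h0 ⟨hI, h⟩⟩
      by_cases h2 : (nbs G w v ∩ I₁).Finite
      · refine (hr3 v h1 h2 (c v)).mono ?_
        rintro u ⟨hu1, hu2, hu3⟩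
        refine ⟨hu1, ?_⟩
        simp only [φ]
        rw [hp0 u hu2, hp1 v h1]
        exact hu3
      · refine (hψ (⟨v, h2⟩, c v)).mono ?_
        rintro u ⟨⟨hu1, hu2⟩, hu3⟩
        refine ⟨hu1, ?_⟩
        simp only at hu3
        simp only [φ]
        rw [hc1 u hu2.1, hu3]
        by_cases h4 : p u true = p v (c v)
        · rw [if_pos h4, ← h4, hp1 u hu2, hp1 u hu2]
          exact (hr1 u).symm
        · rw [if_neg h4]
          exact h4
  · have hf : (nbs G w v).Finite := Set.not_infinite.1 hI
    have hnb : nb G w v = hf.toFinset := by simp [nb, hf]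
    unfold monoWeight biWeight
    rw [tsum_fin G w v hf (fun u => φ u = φ v), tsum_fin G w v hf (fun u => φ u ≠ φ v)]
    have h3 := hc2 v hf
    unfold toCol at h3
    rw [hnb] at h3
    have h5 : (∑ u ∈ hf.toFinset, if p u (c u) = p v (!c v) then w s(v, u) else 0) ≤
        ∑ u ∈ hf.toFinset, if φ u ≠ φ v then w s(v, u) else 0 := by
      refine Finset.sum_le_sum fun u _ => ?_
      by_cases h6 : p u (c u) = p v (!c v)
      · have h7 : φ u ≠ φ v := by
          simp only [φ]
          rw [h6, hpF v hI, hpF v hI]
          cases c v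
          · exact hq1 v
          · exact (hq1 v).symm
        simp [h6, h7]
      · simp [h6]
    exact_mod_cast h3.trans h5

/-- The special case of lists `{0, 1, 2}`: every countable multigraph is majority 3-colourable. -/
theorem three_colourable (V : Type*) [Countable V] (G : SimpleGraph V) (w : Sym2 V → ℕ) :
    ∃ φ : V → Fin 3, IsMajorityColouring G w φ := by
  obtain ⟨φ, _, h⟩ := result V (Fin 3) G w (fun _ => Finset.univ) (fun _ => by simp)
  exact ⟨φ, h⟩

end Pool.Agent.Results.MP_e8eed4_co.MajorityThreeChoosable
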